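import Pool.Agent.W259.GP.Defs

/-! # One-site data from a factorisation `T = B Bᵀ`, arbitrary finite ancilla

Port of `exists_site_of_data` and `exists_site_of_B` (`Pool.Agent.H232R2.LP`) to a general finite
ancilla, with a lower bound for the dephased entropy. -/

open Finset Real

namespace Pool.Agent.W338.GP

open Pool.Agent.H390R2.LP Pool.Agent.H785R2.LP

variable {J : Type} [Fintype J] [DecidableEq J]

/-- spectral theorem in coordinates -/
lemma exists_eig (K : J → J → ℝ) (hsymm : ∀ i j, K i j = K j i) :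
    ∃ (o : J → J → ℝ) (κ : J → ℝ),
      (∀ j k, ∑ i, o j i * o k i = if j = k then 1 else 0) ∧
      (∀ i l, ∑ j, o j i * o j l = if i = l then 1 else 0) ∧
      (∀ j i, ∑ l, K i l * o j l = κ j * o j i) := by
  set A : Matrix J J ℝ := Matrix.of K with hA'
  have hA : A.IsHermitian := by
    ext i j
    simp [A, Matrix.conjTranspose_apply, hsymm i j]
  set b := hA.eigenvectorBasis with hb
  have h1 : ∀ j k, ∑ i, b j i * b k i = if j = k then (1:ℝ) else 0 := by
    intro j k
    have := (orthonormal_iff_ite.mp b.orthonormal) j k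
    rw [← this]
    simp [PiLp.inner_apply, mul_comm]
  set O : Matrix J J ℝ := Matrix.of (fun j i => b j i) with hO
  have hOO : O * O.transpose = 1 := by
    ext j k
    simp [Matrix.mul_apply, O, Matrix.one_apply, h1]
  have hOO' : O.transpose * O = 1 := mul_eq_one_comm.mp hOO
  refine ⟨fun j i => b j i, hA.eigenvalues, h1, ?_, ?_⟩
  · intro i l
    have := congrFun (congrFun hOO' i) l
    simpa [Matrix.mul_apply, O, Matrix.one_apply] using this
  · intro j i
    have := congrFun (hA.mulVec_eigenvectorBasis j) i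
    simpa [Matrix.mulVec, dotProduct, A] using this

lemma quad_eq {K : J → J → ℝ} {o : J → J → ℝ} {κ : J → ℝ}
    (h2 : ∀ i l, ∑ j, o j i * o j l = if i = l then 1 else 0)
    (h3 : ∀ j i, ∑ l, K i l * o j l = κ j * o j i) (i l : J) :
    K i l = ∑ j, κ j * (o j i * o j l) := by
  have : ∑ j, κ j * (o j i * o j l) = ∑ m, K i m * ∑ j, o j m * o j l := by
    simp_rw [Finset.mul_sum]
    rw [Finset.sum_comm]
    refine Finset.sum_congr rfl fun j _ => ?_
    rw [← mul_assoc, ← h3 j i, Finset.sum_mul]
    refine Finset.sum_congr rfl fun m _ => by ring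
  rw [this]
  simp [h2]

omit [DecidableEq J] in
lemma bilin_eq {K : J → J → ℝ} {o : J → J → ℝ} {κ : J → ℝ}
    (hK : ∀ i l, K i l = ∑ j, κ j * (o j i * o j l)) (c c' : J → ℝ) :
    ∑ i, ∑ l, c i * K i l * c' l = ∑ j, κ j * ((∑ i, c i * o j i) * (∑ l, c' l * o j l)) := by
  simp_rw [hK, Finset.sum_mul_sum, Finset.mul_sum, Finset.sum_mul]
  rw [show (∑ i, ∑ l, ∑ j, c i * (κ j * (o j i * o j l)) * c' l)
      = ∑ j, ∑ i, ∑ l, c i * (κ j * (o j i * o j l)) * c' l from ?_]
  · refine Finset.sum_congr rfl fun j _ => Finset.sum_congr rfl fun i _ =>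
      Finset.sum_congr rfl fun l _ => by ring
  · rw [Finset.sum_comm]
    rw [show (∑ l, ∑ i, ∑ j, c i * (κ j * (o j i * o j l)) * c' l)
      = ∑ l, ∑ j, ∑ i, c i * (κ j * (o j i * o j l)) * c' l from
      Finset.sum_congr rfl fun l _ => Finset.sum_comm]
    rw [Finset.sum_comm]
    refine Finset.sum_congr rfl fun j _ => Finset.sum_comm

/-- rotation invariance of the Hilbert-Schmidt norm -/
lemma hs_rot {o : J → J → ℝ}
    (h2 : ∀ i l, ∑ j, o j i * o j l = if i = l then 1 else 0) (F : J → J → ℝ) :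
    ∑ j, ∑ k, (∑ i, ∑ l, o j i * o k l * F i l) ^ 2 = ∑ i, ∑ l, F i l ^ 2 := by
  have key : ∀ (G : J → ℝ), ∑ j, (∑ i, o j i * G i) ^ 2 = ∑ i, G i ^ 2 := by
    intro G
    have : ∀ j, (∑ i, o j i * G i) ^ 2 = ∑ i, ∑ l, (o j i * o j l) * (G i * G l) := by
      intro j
      rw [sq, Finset.sum_mul_sum]
      refine Finset.sum_congr rfl fun i _ => Finset.sum_congr rfl fun l _ => by ring
    simp_rw [this]
    rw [Finset.sum_comm]
    refine Finset.sum_congr rfl fun i _ => ?_
    rw [Finset.sum_comm]
    simp_rw [← Finset.sum_mul, h2]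
    simp [sq]
  calc ∑ j, ∑ k, (∑ i, ∑ l, o j i * o k l * F i l) ^ 2
      = ∑ k, ∑ j, (∑ i, o j i * (∑ l, o k l * F i l)) ^ 2 := by
        rw [Finset.sum_comm]
        refine Finset.sum_congr rfl fun k _ => Finset.sum_congr rfl fun j _ => ?_
        congr 1
        refine Finset.sum_congr rfl fun i _ => ?_
        rw [Finset.mul_sum]
        refine Finset.sum_congr rfl fun l _ => by ring
    _ = ∑ k, ∑ i, (∑ l, o k l * F i l) ^ 2 := Finset.sum_congr rfl fun k _ => key _
    _ = ∑ i, ∑ k, (∑ l, o k l * F i l) ^ 2 := Finset.sum_comm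
    _ = ∑ i, ∑ l, F i l ^ 2 := Finset.sum_congr rfl fun i _ => key _

omit [DecidableEq J] in
lemma bil {N : ℕ} {F : Type} [Fintype F] (B : Fin N → F → J → ℝ) (f : Fin N → ℝ) (c d : J → ℝ) :
    ∑ x, f x * ∑ s, (∑ i, B x s i * c i) * (∑ l, B x s l * d l)
      = ∑ i, ∑ l, c i * d l * (∑ x, f x * ∑ s, B x s i * B x s l) := by
  have L : ∀ x, f x * ∑ s, (∑ i, B x s i * c i) * (∑ l, B x s l * d l)
      = ∑ i, ∑ l, c i * d l * (f x * ∑ s, B x s i * B x s l) := by
    intro x
    have h : ∀ s, (∑ i, B x s i * c i) * (∑ l, B x s l * d l)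
        = ∑ i, ∑ l, c i * d l * (B x s i * B x s l) := by
      intro s
      rw [Finset.sum_mul_sum]
      refine Finset.sum_congr rfl fun i _ => Finset.sum_congr rfl fun l _ => by ring
    simp_rw [h]
    rw [Finset.sum_comm, Finset.mul_sum]
    refine Finset.sum_congr rfl fun i _ => ?_
    rw [Finset.sum_comm, Finset.mul_sum]
    refine Finset.sum_congr rfl fun l _ => ?_
    rw [← Finset.mul_sum]
    ring
  simp_rw [L]
  rw [Finset.sum_comm]
  refine Finset.sum_congr rfl fun i _ => ?_
  rw [Finset.sum_comm]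
  refine Finset.sum_congr rfl fun l _ => ?_
  rw [Finset.mul_sum]

theorem exists_site_of_data {N : ℕ} {F : Type} [Fintype F] [DecidableEq F]
    (hr : Fintype.card J ≤ N * Fintype.card F) (lam nu : J → ℝ) (hl : ∀ a, 0 ≤ lam a)
    (hsum : ∑ a, lam a = 1) (v : J → Fin N → F → ℝ) (hnu : ∀ a, 0 < nu a)
    (hnorm : ∀ a, ∑ x, ∑ i, v a x i ^ 2 = nu a)
    (horth : ∀ a b, a ≠ b → ∑ x, ∑ i, v a x i * v b x i = 0)
    (A : Fin N → F → F → ℝ)
    (hA : ∀ x i j, A x i j = ∑ a, lam a * (v a x i * v a x j / nu a))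
    (W : Fin N → F → F → ℝ) (G : Fin N → F → ℝ)
    (hW1 : ∀ x i i', ∑ a, W x i a * W x i' a = if i = i' then 1 else 0)
    (hW2 : ∀ x i i', ∑ a, ∑ a', W x i a * W x i' a' * A x a a' = if i = i' then G x i else 0) :
    ∃ s : Site (Fin N × F) (Fin N), s.S = ∑ a, Real.negMulLog (lam a) ∧
      s.h = ∑ x, ∑ i, Real.negMulLog (G x i) ∧
      ∀ f : Fin N → ℝ, s.E (fun (_ : Unit) x => f x) = 2 * (∑ x, (∑ i, A x i i) * f x ^ 2
        - ∑ a, ∑ b, √(lam a * lam b) * ((∑ x, f x * ∑ i, v a x i * v b x i) ^ 2 / (nu a * nu b))) := by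
  obtain ⟨e⟩ : Nonempty (J ↪ Fin N × F) :=
    Function.Embedding.nonempty_of_card_le (by simpa using hr)
  have he := e.injective
  -- orthonormal basis extending the normalised vectors
  obtain ⟨v0, hv0def⟩ : ∃ v0 : J → EuclideanSpace ℝ (Fin N × F),
      ∀ a ω, v0 a ω = v a ω.1 ω.2 / √(nu a) :=
    ⟨fun a => WithLp.toLp 2 (fun ω : Fin N × F => v a ω.1 ω.2 / √(nu a)), fun a ω => rfl⟩
  obtain ⟨v1, hv1def⟩ : ∃ v1 : Fin N × F → EuclideanSpace ℝ (Fin N × F),
      ∀ a, v1 (e a) = v0 a := ⟨Function.extend e v0 0, fun a => he.extend_apply _ _ _⟩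
  have hv0 : Orthonormal ℝ v0 := by
    rw [orthonormal_iff_ite]
    intro a b
    have h1 : inner ℝ (v0 a) (v0 b) = (∑ x, ∑ i, v a x i * v b x i) / (√(nu a) * √(nu b)) := by
      rw [PiLp.inner_apply, Fintype.sum_prod_type, Finset.sum_div]
      simp only [hv0def, RCLike.inner_apply, conj_trivial]
      refine Finset.sum_congr rfl fun x _ => ?_
      rw [Finset.sum_div]
      refine Finset.sum_congr rfl fun i _ => ?_
      have := Real.sqrt_pos.mpr (hnu a)
      have := Real.sqrt_pos.mpr (hnu b)
      field_simp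
    rw [h1]
    split_ifs with hab
    · subst hab
      have h2 : ∑ x, ∑ i, v a x i * v a x i = nu a := by rw [← hnorm a]; simp only [sq]
      rw [h2, Real.mul_self_sqrt (hnu a).le]
      exact div_self (hnu a).ne'
    · rw [horth a b hab]; simp
  have hv1 : Orthonormal ℝ ((Set.range e).domRestrict v1) := by
    classical
    rw [orthonormal_iff_ite]
    rintro ⟨_, a, rfl⟩ ⟨_, b, rfl⟩
    have := (orthonormal_iff_ite.mp hv0) a b
    rw [Set.domRestrict_apply, Set.domRestrict_apply, hv1def, hv1def, this]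
    by_cases hab : a = b
    · subst hab; rw [if_pos rfl, if_pos rfl]
    · rw [if_neg hab, if_neg (fun h => hab (he (congrArg Subtype.val h)))]
  obtain ⟨b, hb⟩ := hv1.exists_orthonormalBasis_extension_of_card_eq
    (finrank_euclideanSpace (𝕜 := ℝ) (ι := Fin N × F))
  have hbe : ∀ a, b (e a) = v0 a := by
    intro a
    rw [hb (e a) ⟨a, rfl⟩, hv1def]
  let lam' : Fin N × F → ℝ := Function.extend e lam 0
  have hlam' : ∀ a, lam' (e a) = lam a := fun a => he.extend_apply _ _ _
  have hlam0 : ∀ ω ∉ Set.range e, lam' ω = 0 := by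
    intro ω hω
    simp only [lam', Function.extend]
    rw [dif_neg (by simpa using hω)]
    rfl
  have hsumΩ : ∀ F' : Fin N × F → ℝ, ∑ ω, lam' ω * F' ω = ∑ a, lam a * F' (e a) := by
    intro F'
    symm
    apply Fintype.sum_of_injective e he
    · intro ω hω; rw [hlam0 ω hω, zero_mul]
    · intro a; rw [hlam']
  have hub : ∀ a ω, b (e a) ω = v a ω.1 ω.2 / √(nu a) := by
    intro a ω; rw [hbe, hv0def]
  have hsq : ∀ a, √(nu a) * √(nu a) = nu a := fun a => Real.mul_self_sqrt (hnu a).le
  have hsqpos : ∀ a, 0 < √(nu a) := fun a => Real.sqrt_pos.mpr (hnu a)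
  -- block entries
  have hblk : ∀ x i j, ∑ a, lam' a * (b a (x, i) * b a (x, j)) = A x i j := by
    intro x i j
    rw [hsumΩ (fun ω => b ω (x, i) * b ω (x, j)), hA]
    refine Finset.sum_congr rfl fun a _ => ?_
    rw [hub, hub]
    congr 1
    rw [div_mul_div_comm, hsq]
  let w : Fin N × F → Fin N × F → ℝ := fun c ω => if c.1 = ω.1 then W c.1 c.2 ω.2 else 0
  have hw : ∀ (c : Fin N × F) (F' : Fin N × F → ℝ), ∑ ω, F' ω * w c ω
      = ∑ i, F' (c.1, i) * W c.1 c.2 i := by
    intro c F'
    rw [Fintype.sum_prod_type]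
    simp only [w]
    rw [Finset.sum_eq_single c.1]
    · simp
    · intro x _ hx
      simp [Ne.symm hx]
    · intro h; exact absurd (Finset.mem_univ _) h
  refine ⟨{ pos := Prod.fst
            u := fun a ω => b a ω
            w := w
            lam := lam'
            g := fun c => G c.1 c.2
            lab := Prod.fst
            u_orth := ?_
            w_orth := ?_
            lam_nonneg := ?_
            lam_sum := ?_
            w_supp := ?_
            w_diag := ?_ }, ?_, ?_, ?_⟩
  · intro a c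
    have := (orthonormal_iff_ite.mp b.orthonormal) a c
    rw [PiLp.inner_apply] at this
    simp only [RCLike.inner_apply, conj_trivial] at this
    rw [← this]
    refine Finset.sum_congr rfl fun ω _ => by ring
  · intro a c
    rw [hw c (fun ω => w a ω)]
    by_cases h : a.1 = c.1
    · simp only [w, h, if_true]
      rw [hW1 c.1 a.2 c.2]
      by_cases h2 : a.2 = c.2
      · rw [if_pos h2, if_pos (Prod.ext h h2)]
      · rw [if_neg h2, if_neg (fun hh => h2 (by rw [hh]))]
    · simp only [w, if_neg h, zero_mul, Finset.sum_const_zero]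
      rw [if_neg (fun hh => h (by rw [hh]))]
  · intro ω
    by_cases hω : ω ∈ Set.range e
    · obtain ⟨a, rfl⟩ := hω; rw [hlam']; exact hl a
    · rw [hlam0 ω hω]
  · have := hsumΩ (fun _ => 1)
    simp only [mul_one] at this
    rw [this, hsum]
  · intro c ω h
    simp only [w]
    rw [if_neg (fun hh => h hh.symm)]
  · intro c c' hcc
    have h1 : ∀ a, ∑ ω, b a ω * w c ω = ∑ i, b a (c.1, i) * W c.1 c.2 i :=
      fun a => hw c (fun ω => b a ω)
    have h2 : ∀ a, ∑ ω, b a ω * w c' ω = ∑ i, b a (c.1, i) * W c.1 c'.2 i := by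
      intro a
      rw [hw c' (fun ω => b a ω), ← hcc]
    simp_rw [h1, h2]
    have h3 : ∑ a, lam' a * (∑ i, b a (c.1, i) * W c.1 c.2 i)
        * (∑ i, b a (c.1, i) * W c.1 c'.2 i)
        = ∑ i, ∑ i', W c.1 c.2 i * W c.1 c'.2 i' * A c.1 i i' := by
      have h4 : ∀ a, lam' a * (∑ i, b a (c.1, i) * W c.1 c.2 i)
          * (∑ i, b a (c.1, i) * W c.1 c'.2 i)
          = ∑ i, ∑ i', W c.1 c.2 i * W c.1 c'.2 i' * (lam' a * (b a (c.1, i) * b a (c.1, i'))) := by
        intro a
        rw [mul_assoc, Finset.sum_mul_sum, Finset.mul_sum]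
        refine Finset.sum_congr rfl fun i _ => ?_
        rw [Finset.mul_sum]
        refine Finset.sum_congr rfl fun i' _ => by ring
      simp_rw [h4]
      rw [Finset.sum_comm]
      refine Finset.sum_congr rfl fun i _ => ?_
      rw [Finset.sum_comm]
      refine Finset.sum_congr rfl fun i' _ => ?_
      rw [← Finset.mul_sum, hblk]
    rw [h3, hW2 c.1 c.2 c'.2]
    by_cases h : c.2 = c'.2
    · rw [if_pos h, if_pos (Prod.ext hcc h)]
    · rw [if_neg h, if_neg (fun hh => h (by rw [hh]))]
  · simp only [Site.S]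
    symm
    apply Fintype.sum_of_injective e he
    · intro ω hω; rw [hlam0 ω hω, Real.negMulLog_zero]
    · intro a; rw [hlam']
  · simp only [Site.h]
    rw [Fintype.sum_prod_type]
  · intro f
    simp only [Site.E, Finset.univ_unique, Finset.sum_singleton]
    congr 1
    congr 1
    · rw [hsumΩ (fun a => ∑ ω, b a ω ^ 2 * f ω.1 ^ 2)]
      have h1 : ∀ a, ∑ ω, b (e a) ω ^ 2 * f ω.1 ^ 2
          = ∑ x, (∑ i, v a x i ^ 2 / nu a) * f x ^ 2 := by
        intro a
        rw [Fintype.sum_prod_type]
        refine Finset.sum_congr rfl fun x _ => ?_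
        rw [Finset.sum_mul]
        refine Finset.sum_congr rfl fun i _ => ?_
        rw [hub, div_pow, Real.sq_sqrt (hnu a).le]
      simp_rw [h1, Finset.mul_sum]
      rw [Finset.sum_comm]
      refine Finset.sum_congr rfl fun x _ => ?_
      have h5 : ∑ i, A x i i = ∑ a, ∑ i, lam a * (v a x i ^ 2 / nu a) := by
        rw [Finset.sum_comm]
        refine Finset.sum_congr rfl fun i _ => ?_
        rw [hA]
        refine Finset.sum_congr rfl fun a _ => by ring
      rw [h5, Finset.sum_mul]
      refine Finset.sum_congr rfl fun a _ => ?_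
      rw [← Finset.mul_sum]; ring
    · have h1 : ∀ a c, √(lam' a * lam' c) = √(lam' a) * √(lam' c) := by
        intro a c
        apply Real.sqrt_mul
        by_cases hω : a ∈ Set.range e
        · obtain ⟨a, rfl⟩ := hω; rw [hlam']; exact hl a
        · rw [hlam0 a hω]
      have h2 : ∀ (F' : Fin N × F → ℝ), ∑ ω, √(lam' ω) * F' ω = ∑ a, √(lam a) * F' (e a) := by
        intro F'
        symm
        apply Fintype.sum_of_injective e he
        · intro ω hω; rw [hlam0 ω hω, Real.sqrt_zero, zero_mul]
        · intro a; rw [hlam']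
      simp_rw [h1, mul_assoc, ← Finset.mul_sum]
      rw [h2 (fun a => ∑ c, √(lam' c) * (∑ ω, b a ω * (f ω.1 * b c ω)) ^ 2)]
      refine Finset.sum_congr rfl fun a _ => ?_
      rw [h2 (fun c => (∑ ω, b (e a) ω * (f ω.1 * b c ω)) ^ 2), Finset.mul_sum]
      refine Finset.sum_congr rfl fun c _ => ?_
      rw [Real.sqrt_mul (hl a), mul_assoc]
      congr 2
      have h3 : ∑ ω, b (e a) ω * (f ω.1 * b (e c) ω)
          = (∑ x, f x * ∑ i, v a x i * v c x i) / (√(nu a) * √(nu c)) := by
        rw [Fintype.sum_prod_type, Finset.sum_div]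
        refine Finset.sum_congr rfl fun x _ => ?_
        rw [Finset.mul_sum, Finset.sum_div]
        refine Finset.sum_congr rfl fun i _ => ?_
        rw [hub, hub]
        have := hsqpos a
        have := hsqpos c
        field_simp
      rw [h3, div_pow, mul_pow, Real.sq_sqrt (hnu a).le, Real.sq_sqrt (hnu c).le]

/-- entropy lower bound for a positive semidefinite matrix dominated by a diagonal one -/
lemma entropy_lower {F : Type} [Fintype F] [DecidableEq F] (A : F → F → ℝ) (D : F → ℝ)
    (hD : ∀ a, 0 < D a) (W : F → F → ℝ) (g : F → ℝ)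
    (h1 : ∀ j k, ∑ i, W j i * W k i = if j = k then 1 else 0)
    (hA : ∀ i l, A i l = ∑ j, g j * (W j i * W j l)) (hg : ∀ j, 0 ≤ g j)
    (hle : ∀ v : F → ℝ, ∑ i, ∑ l, v i * A i l * v l ≤ ∑ a, D a * v a ^ 2) :
    -(∑ a, A a a * Real.log (D a)) ≤ ∑ k, Real.negMulLog (g k) := by
  have hW : ∀ k, ∑ a, W k a ^ 2 = 1 := by
    intro k; have := h1 k k; simpa [sq] using this
  have key : ∀ k, 0 < g k → Real.log (g k) ≤ ∑ a, W k a ^ 2 * Real.log (D a) := by
    intro k hk
    set q := ∑ a, W k a ^ 2 / D a with hq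
    have hq0 : 0 < q := by
      have hnn : 0 ≤ q := Finset.sum_nonneg fun a _ => div_nonneg (sq_nonneg _) (hD a).le
      refine lt_of_le_of_ne hnn fun h0 => ?_
      have h2 : ∀ a ∈ Finset.univ, W k a ^ 2 / D a = 0 :=
        (Finset.sum_eq_zero_iff_of_nonneg
          (fun a _ => div_nonneg (sq_nonneg _) (hD a).le)).mp h0.symm
      have h3 : ∀ a, W k a ^ 2 = 0 := by
        intro a
        have := h2 a (Finset.mem_univ a)
        rcases div_eq_zero_iff.mp this with h | h
        · exact h
        · exact absurd h (hD a).ne'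
      have h4 := hW k
      simp_rw [h3] at h4
      simp at h4
    have h5 := hle (fun a => W k a / D a)
    rw [bilin_eq hA] at h5
    have h6 : g k * ((∑ i, W k i / D i * W k i) * (∑ l, W k l / D l * W k l)) ≤
        ∑ j, g j * ((∑ i, W k i / D i * W j i) * (∑ l, W k l / D l * W j l)) := by
      refine Finset.single_le_sum (f := fun j =>
        g j * ((∑ i, W k i / D i * W j i) * (∑ l, W k l / D l * W j l)))
        (fun j _ => mul_nonneg (hg j) (mul_self_nonneg _)) (Finset.mem_univ k)
    have h7 : ∑ i, W k i / D i * W k i = q := by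
      rw [hq]; refine Finset.sum_congr rfl fun a _ => ?_; ring
    have h8 : ∑ a, D a * (W k a / D a) ^ 2 = q := by
      rw [hq]; refine Finset.sum_congr rfl fun a _ => ?_
      have := (hD a).ne'
      field_simp
    rw [h7] at h6
    rw [h8] at h5
    have h9 : g k * q ≤ 1 := by
      have : g k * (q * q) ≤ q := h6.trans h5
      by_contra hcon
      push Not at hcon
      nlinarith
    have h10 : ∑ a, W k a ^ 2 * Real.log (1 / D a) ≤ Real.log q := by
      have := strictConcaveOn_log_Ioi.concaveOn.le_map_sum (t := Finset.univ)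
        (w := fun a => W k a ^ 2) (p := fun a => 1 / D a)
        (fun a _ => sq_nonneg _) (hW k) (fun a _ => by
          simp only [Set.mem_Ioi]; have := hD a; positivity)
      simp only [smul_eq_mul] at this
      refine this.trans (le_of_eq ?_)
      rw [hq]
      congr 1
      refine Finset.sum_congr rfl fun a _ => by ring
    have h11 : Real.log q ≤ -Real.log (g k) := by
      have : Real.log (g k * q) ≤ 0 := Real.log_nonpos (by positivity) h9
      rw [Real.log_mul hk.ne' hq0.ne'] at this
      linarith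
    have h12 : ∑ a, W k a ^ 2 * Real.log (1 / D a) = -∑ a, W k a ^ 2 * Real.log (D a) := by
      rw [← Finset.sum_neg_distrib]
      refine Finset.sum_congr rfl fun a _ => ?_
      rw [one_div, Real.log_inv]; ring
    rw [h12] at h10
    linarith
  have h2 : ∑ a, A a a * Real.log (D a) = ∑ k, g k * ∑ a, W k a ^ 2 * Real.log (D a) := by
    simp_rw [hA, Finset.sum_mul, Finset.mul_sum]
    rw [Finset.sum_comm]
    refine Finset.sum_congr rfl fun k _ => Finset.sum_congr rfl fun a _ => by ring
  rw [h2, ← Finset.sum_neg_distrib]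
  refine Finset.sum_le_sum fun k _ => ?_
  rw [Real.negMulLog]
  rcases (hg k).lt_or_eq with h | h
  · have := key k h
    nlinarith
  · rw [← h]; simp

theorem site : Pool.Agent.W259.GP.S_site := by
  intro N F J _ _ _ _ B K D n hr hK hdet hn hn0 hD hdom
  have hsymm : ∀ i j, K i j = K j i := by
    intro i j; rw [hK, hK]
    refine Finset.sum_congr rfl fun x _ => Finset.sum_congr rfl fun s _ => by ring
  obtain ⟨o, κ, h1, h2, h3⟩ := exists_eig K hsymm
  have h4 := quad_eq h2 h3
  set v : J → Fin N → F → ℝ := fun j x s => ∑ i, B x s i * o j i with hv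
  -- Gram matrix of v
  have hgram : ∀ j k, ∑ x, ∑ s, v j x s * v k x s = if j = k then κ k else 0 := by
    intro j k
    have e1 : ∑ x, ∑ s, v j x s * v k x s
        = ∑ i, o j i * ∑ l, K i l * o k l := by
      have := bil B (fun _ => 1) (o j) (o k)
      simp only [one_mul] at this
      simp only [hv]
      rw [this]
      refine Finset.sum_congr rfl fun i _ => ?_
      rw [Finset.mul_sum]
      refine Finset.sum_congr rfl fun l _ => ?_
      rw [← hK]
      ring
    rw [e1]
    simp_rw [h3]
    rw [show (∑ i, o j i * (κ k * o k i)) = κ k * ∑ i, o j i * o k i by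
      rw [Finset.mul_sum]; refine Finset.sum_congr rfl fun i _ => by ring]
    rw [h1]
    split_ifs <;> simp
  have hκnn : ∀ j, 0 ≤ κ j := by
    intro j
    have := hgram j j
    rw [if_pos rfl] at this
    rw [← this]
    exact Finset.sum_nonneg fun x _ => Finset.sum_nonneg fun s _ => mul_self_nonneg _
  have hκpos : ∀ j, 0 < κ j := by
    intro j
    refine lt_of_le_of_ne (hκnn j) fun h0 => ?_
    have hc := hdet (o j) (fun i => by rw [h3, ← h0, zero_mul])
    have := h1 j j
    rw [hc] at this
    simp at this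
  -- sum of squares
  have hDs : ∀ i, ∑ j, K i j ^ 2 = ∑ j, κ j ^ 2 * o j i ^ 2 := by
    intro i
    have : ∑ l, K i l ^ 2 = ∑ l, K i l * ∑ j, κ j * (o j i * o j l) := by
      refine Finset.sum_congr rfl fun l _ => ?_
      rw [← h4, sq]
    rw [this]
    simp_rw [Finset.mul_sum]
    rw [Finset.sum_comm]
    refine Finset.sum_congr rfl fun j _ => ?_
    rw [show (∑ l, K i l * (κ j * (o j i * o j l))) = κ j * o j i * ∑ l, K i l * o j l by
      rw [Finset.mul_sum]; refine Finset.sum_congr rfl fun i _ => by ring]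
    rw [h3]; ring
  have hnκ : n = ∑ j, κ j ^ 2 := by
    rw [hn]
    simp_rw [hDs]
    rw [Finset.sum_comm]
    refine Finset.sum_congr rfl fun j _ => ?_
    rw [← Finset.mul_sum]
    have := h1 j j
    simp only [if_true] at this
    simp_rw [sq (o j _)]
    rw [this]; ring
  have hsumo : ∀ i, ∑ j, o j i ^ 2 = 1 := by
    intro i; have := h2 i i; simp only [if_true] at this; simpa [sq] using this
  have hsumo' : ∀ j, ∑ i, o j i ^ 2 = 1 := by
    intro j; have := h1 j j; simp only [if_true] at this; simpa [sq] using this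
  -- blocks
  let A : Fin N → F → F → ℝ := fun x a a' => (∑ i, ∑ j, B x a i * K i j * B x a' j) / n
  have hAv : ∀ x i j, A x i j = ∑ a, κ a ^ 2 / n * (v a x i * v a x j / κ a) := by
    intro x i j
    simp only [A]
    rw [bilin_eq h4, Finset.sum_div]
    refine Finset.sum_congr rfl fun a _ => ?_
    have := (hκpos a).ne'
    simp only [hv]
    field_simp
  have hAs : ∀ x i j, A x i j = A x j i := by
    intro x i j
    rw [hAv, hAv]
    refine Finset.sum_congr rfl fun a _ => by ring
  choose W G hW1 hW2 hW3 using fun x => exists_eig (A x) (hAs x)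
  have hW4 := fun x => quad_eq (hW2 x) (hW3 x)
  have hGd : ∀ x i i', ∑ a, ∑ a', W x i a * W x i' a' * A x a a' = if i = i' then G x i else 0 := by
    intro x i i'
    have e1 : ∀ a, ∑ a', W x i a * W x i' a' * A x a a' = W x i a * (G x i' * W x i' a) := by
      intro a
      rw [← hW3 x i' a, Finset.mul_sum]
      refine Finset.sum_congr rfl fun a' _ => by ring
    simp_rw [e1]
    have e2 : ∑ a, W x i a * (G x i' * W x i' a) = G x i' * ∑ a, W x i a * W x i' a := by
      rw [Finset.mul_sum]
      refine Finset.sum_congr rfl fun a _ => by ring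
    rw [e2, hW1]
    by_cases h : i = i'
    · rw [if_pos h, if_pos h, mul_one, h]
    · rw [if_neg h, if_neg h, mul_zero]
  have hGnn : ∀ x i, 0 ≤ G x i := by
    intro x i
    have e1 := hGd x i i
    rw [if_pos rfl] at e1
    rw [← e1]
    have e2 : ∑ a, ∑ a', W x i a * W x i a' * A x a a' =
        ∑ j, κ j ^ 2 / n / κ j * (∑ a, W x i a * v j x a) ^ 2 := by
      have e3 : ∀ j, κ j ^ 2 / n / κ j * (∑ a, W x i a * v j x a) ^ 2 =
          ∑ a, ∑ a', W x i a * W x i a' * (κ j ^ 2 / n * (v j x a * v j x a' / κ j)) := by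
        intro j
        rw [sq (∑ a, W x i a * v j x a), Finset.sum_mul_sum, Finset.mul_sum]
        refine Finset.sum_congr rfl fun a _ => ?_
        rw [Finset.mul_sum]
        refine Finset.sum_congr rfl fun a' _ => ?_
        have := (hκpos j).ne'
        field_simp
      simp_rw [e3]
      symm
      rw [Finset.sum_comm]
      refine Finset.sum_congr rfl fun a _ => ?_
      rw [Finset.sum_comm]
      refine Finset.sum_congr rfl fun a' _ => ?_
      rw [← Finset.mul_sum, ← hAv]
    rw [e2]
    refine Finset.sum_nonneg fun j _ => ?_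
    have := hκpos j
    positivity
  obtain ⟨s, hsS, hsh, hsE⟩ := exists_site_of_data hr (fun j => κ j ^ 2 / n) κ
    (fun j => by positivity) (by rw [← Finset.sum_div, ← hnκ]; exact div_self hn0.ne') v hκpos
    (fun j => by
      have := hgram j j
      rw [if_pos rfl] at this
      simpa [sq] using this)
    (fun j k hjk => by rw [hgram, if_neg hjk]) A hAv W G hW1 hGd
  refine ⟨s, ?_, ?_, ?_⟩
  · rw [hsS]
    calc ∑ j, negMulLog (κ j ^ 2 / n)
        = ∑ j, (∑ i, o j i ^ 2) * negMulLog (κ j ^ 2 / n) := by simp_rw [hsumo', one_mul]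
      _ = ∑ i, ∑ j, o j i ^ 2 * negMulLog (κ j ^ 2 / n) := by
          simp_rw [Finset.sum_mul]; exact Finset.sum_comm
      _ ≤ ∑ i, negMulLog (∑ j, o j i ^ 2 * (κ j ^ 2 / n)) := by
          refine Finset.sum_le_sum fun i _ => ?_
          have := Real.concaveOn_negMulLog.le_map_sum (t := Finset.univ)
            (w := fun j => o j i ^ 2) (p := fun j => κ j ^ 2 / n)
            (fun j _ => sq_nonneg _) (hsumo i) (fun j _ => by
              simp only [Set.mem_Ici]; positivity)
          simpa [smul_eq_mul] using this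
      _ = ∑ i, negMulLog ((∑ j, K i j ^ 2) / n) := by
          refine Finset.sum_congr rfl fun i _ => ?_
          congr 1
          rw [hDs, Finset.sum_div]
          refine Finset.sum_congr rfl fun j _ => by ring
  · rw [hsh, ← Finset.sum_neg_distrib]
    refine Finset.sum_le_sum fun x _ => ?_
    refine entropy_lower (A x) (D x) (hD x) (W x) (G x) (hW1 x) (hW4 x) (hGnn x) fun u => ?_
    have e1 : ∑ i, ∑ l, u i * A x i l * u l =
        (∑ i, ∑ j, (∑ a, u a * B x a i) * K i j * (∑ a, u a * B x a j)) / n := by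
      simp only [A]
      rw [bilin_eq h4 (fun i => ∑ a, u a * B x a i) (fun i => ∑ a, u a * B x a i), Finset.sum_div]
      have e2 : ∀ a, κ a * ((∑ i, (∑ b, u b * B x b i) * o a i) *
          (∑ l, (∑ b, u b * B x b l) * o a l)) / n =
          ∑ i, ∑ l, u i * u l * (κ a / n * (v a x i * v a x l)) := by
        intro a
        have e3 : ∑ i, (∑ b, u b * B x b i) * o a i = ∑ b, u b * v a x b := by
          simp_rw [Finset.sum_mul]
          rw [Finset.sum_comm]
          refine Finset.sum_congr rfl fun b _ => ?_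
          simp only [hv]
          rw [Finset.mul_sum]
          refine Finset.sum_congr rfl fun i _ => by ring
        rw [e3, Finset.sum_mul_sum, Finset.mul_sum, Finset.sum_div]
        refine Finset.sum_congr rfl fun i _ => ?_
        rw [Finset.mul_sum, Finset.sum_div]
        refine Finset.sum_congr rfl fun l _ => by ring
      simp_rw [e2]
      symm
      rw [Finset.sum_comm]
      refine Finset.sum_congr rfl fun i _ => ?_
      rw [Finset.sum_comm]
      refine Finset.sum_congr rfl fun l _ => ?_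
      rw [← Finset.mul_sum]
      have e4 : (∑ i_1, ∑ j, B x i i_1 * K i_1 j * B x l j) / n =
          ∑ a, κ a / n * (v a x i * v a x l) := by
        rw [bilin_eq h4, Finset.sum_div]
        refine Finset.sum_congr rfl fun a _ => ?_
        simp only [hv]; ring
      rw [e4]; ring
    rw [e1, div_le_iff₀ hn0, mul_comm]
    exact hdom x u
  · intro f
    rw [hsE]
    have hF : ∀ j k, (∑ x, f x * ∑ i, v j x i * v k x i)
        = ∑ i, ∑ l, o j i * o k l * (∑ x, f x * ∑ s, B x s i * B x s l) := by
      intro j k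
      exact bil B f (o j) (o k)
    have hE2 : ∑ a, ∑ b, √(κ a ^ 2 / n * (κ b ^ 2 / n)) *
        ((∑ x, f x * ∑ i, v a x i * v b x i) ^ 2 / (κ a * κ b))
        = (∑ i, ∑ j, (∑ x, f x * ∑ s, B x s i * B x s j) ^ 2) / n := by
      rw [← hs_rot h2 (fun i j => ∑ x, f x * ∑ s, B x s i * B x s j), Finset.sum_div]
      refine Finset.sum_congr rfl fun a _ => ?_
      rw [Finset.sum_div]
      refine Finset.sum_congr rfl fun b _ => ?_
      rw [hF]
      have ha := hκpos a
      have hb := hκpos b
      rw [show κ a ^ 2 / n * (κ b ^ 2 / n) = (κ a * κ b / n) ^ 2 by ring,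
        Real.sqrt_sq (by positivity)]
      field_simp
    rw [hE2]
    have hE1 : (∑ x, (∑ i, A x i i) * f x ^ 2) =
        (∑ x, (∑ a, ∑ i, ∑ j, B x a i * K i j * B x a j) * f x ^ 2) / n := by
      rw [Finset.sum_div]; refine Finset.sum_congr rfl fun x _ => ?_
      simp only [A]
      rw [← Finset.sum_div]; ring
    rw [hE1]
    ring

end Pool.Agent.W338.GP
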